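import Pool.Agent.FB74.Poly

set_option autoImplicit false

namespace Pool.Agent.Results.MP_955e70_an.AlgebraicBoundary

open Topology Filter Set
open Pool.FB74 (V HP PR rc)

/-- The value at `z = (x₁ + i y₁, x₂ + i y₂)` of a real polynomial in the real coordinates
`x₁, y₁, x₂, y₂` of `ℂ²`. -/
noncomputable def val (P : MvPolynomial (Fin 4) ℝ) (z : Fin 2 → ℂ) : ℝ :=
  MvPolynomial.eval ![(z 0).re, (z 0).im, (z 1).re, (z 1).im] P

theorem val_eq (P : MvPolynomial (Fin 4) ℝ) (z : Fin 2 → ℂ) :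
    val P z = PR (HP P) (z 0, z 1) := by
  rw [Pool.FB74.PR_HP]
  rfl

theorem val_continuous (P : MvPolynomial (Fin 4) ℝ) : Continuous (val P) := by
  have h1 : val P = PR (HP P) ∘ fun z : Fin 2 → ℂ => (z 0, z 1) := funext fun z => val_eq P z
  rw [h1]
  obtain ⟨d, hd⟩ := Pool.FB74.exists_PSys P
  exact (Pool.FB74.PR_continuous hd.toHSys).comp (by fun_prop)

/-- The case of a negative polynomial. -/
theorem neg_case (Ω : Set (Fin 2 → ℂ)) (hΩ : IsOpen Ω) (F G : (Fin 2 → ℂ) → (Fin 2 → ℂ))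
    (hF : DifferentiableOn ℂ F Ω) (hG : Differentiable ℂ G) (hGΩ : ∀ y, G y ∈ Ω)
    (hGF : ∀ x ∈ Ω, G (F x) = x) (P : MvPolynomial (Fin 4) ℝ) (hP : ∀ z ∈ Ω, val P z < 0)
    (p : Fin 2 → ℂ) (hp : p ∈ frontier Ω)
    (hloc : ∀ᶠ z in 𝓝 p, z ∈ frontier Ω → val P z = 0) : fderiv ℝ (val P) p = 0 := by
  set e : (Fin 2 → ℂ) ≃L[ℂ] ℂ × ℂ := ContinuousLinearEquiv.finTwoArrow ℂ ℂ with he
  have hee : ∀ z, e z = (z 0, z 1) := fun z => rfl
  have hval : ∀ w : V, MvPolynomial.eval (rc w) P = val P (e.symm w) := by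
    intro w
    rw [val_eq, ← Pool.FB74.PR_HP]
    congr 1
  have hfr : ∀ w : V, w ∈ frontier (e.symm ⁻¹' Ω) ↔ e.symm w ∈ frontier Ω := by
    intro w
    have h1 := e.symm.toHomeomorph.preimage_frontier Ω
    have h2 : frontier (e.symm ⁻¹' Ω) = e.symm ⁻¹' frontier Ω := h1.symm
    rw [h2]
    rfl
  have hmain := Pool.FB74.main_V (Ω := e.symm ⁻¹' Ω) (hΩ.preimage e.symm.continuous)
    (F := fun w => e (F (e.symm w))) (G := fun w => e (G (e.symm w)))
    (e.differentiable.comp_differentiableOn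
      (hF.comp e.symm.differentiable.differentiableOn fun w hw => hw))
    (e.differentiable.comp (hG.comp e.symm.differentiable))
    (fun y => by
      show e.symm (e (G (e.symm y))) ∈ Ω
      rw [ContinuousLinearEquiv.symm_apply_apply]
      exact hGΩ _)
    (fun x hx => by
      show e (G (e.symm (e (F (e.symm x))))) = x
      rw [ContinuousLinearEquiv.symm_apply_apply, hGF _ hx,
        ContinuousLinearEquiv.apply_symm_apply]) P
    (fun z hz => by rw [hval]; exact hP _ hz) (p := e p)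
    (by rw [hfr, ContinuousLinearEquiv.symm_apply_apply]; exact hp)
    (by
      have h1 : Tendsto e.symm (𝓝 (e p)) (𝓝 p) := by
        have := e.symm.continuous.tendsto (e p)
        rwa [ContinuousLinearEquiv.symm_apply_apply] at this
      filter_upwards [h1.eventually hloc] with w hw hwf
      rw [hval]
      exact hw ((hfr w).1 hwf))
  obtain ⟨d, hd⟩ := Pool.FB74.exists_PSys P
  have h1 := Pool.FB74.PR_fderiv hd.toHSys (e p) hmain
  have h2 : HasFDerivAt (e : (Fin 2 → ℂ) → ℂ × ℂ)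
      ((e : (Fin 2 → ℂ) →L[ℂ] ℂ × ℂ).restrictScalars ℝ) p := e.hasFDerivAt.restrictScalars ℝ
  have h3 := h1.comp p h2
  have h4 : val P = PR (HP P) ∘ e := funext fun z => val_eq P z
  rw [h4, h3.fderiv]
  simp

/-- Let `Ω ⊆ ℂ²` be open and biholomorphic to `ℂ²` and let `P` be a real polynomial without zeros
in `Ω`. If `p` is a boundary point of `Ω` near which `P` vanishes on the boundary of `Ω`, then
`dP(p) = 0`. -/
theorem result (Ω : Set (Fin 2 → ℂ)) (hΩ : IsOpen Ω)
    (hbih : ∃ F G : (Fin 2 → ℂ) → (Fin 2 → ℂ), DifferentiableOn ℂ F Ω ∧ Differentiable ℂ G ∧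
      (∀ y, G y ∈ Ω) ∧ (∀ x ∈ Ω, G (F x) = x) ∧ (∀ y, F (G y) = y))
    (P : MvPolynomial (Fin 4) ℝ) (hP : ∀ z ∈ Ω, val P z ≠ 0)
    (p : Fin 2 → ℂ) (hp : p ∈ frontier Ω)
    (hloc : ∀ᶠ z in 𝓝 p, z ∈ frontier Ω → val P z = 0) : fderiv ℝ (val P) p = 0 := by
  obtain ⟨F, G, hF, hG, hGΩ, hGF, -⟩ := hbih
  have hconn : IsPreconnected Ω := by
    have h1 : Ω = range G := by
      refine Subset.antisymm (fun x hx => ⟨F x, hGF x hx⟩) ?_
      rintro _ ⟨y, rfl⟩
      exact hGΩ y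
    rw [h1]
    exact isPreconnected_range hG.continuous
  by_cases hneg : ∀ z ∈ Ω, val P z < 0
  · exact neg_case Ω hΩ F G hF hG hGΩ hGF P hneg p hp hloc
  · push Not at hneg
    obtain ⟨z0, hz0, hz0'⟩ := hneg
    have hpos : ∀ z ∈ Ω, 0 < val P z := by
      intro z hz
      by_contra hcon
      push Not at hcon
      obtain ⟨w, hw, hw0⟩ := hconn.intermediate_value hz hz0 (val_continuous P).continuousOn
        (show (0 : ℝ) ∈ Icc _ _ from ⟨hcon, hz0'⟩)
      exact hP w hw hw0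
    have hval : ∀ z, val (-P) z = -val P z := by
      intro z
      simp [val]
    have h1 := neg_case Ω hΩ F G hF hG hGΩ hGF (-P)
      (fun z hz => by rw [hval]; linarith [hpos z hz]) p hp
      (hloc.mono fun z hz hzf => by rw [hval, hz hzf, neg_zero])
    have h2 : val (-P) = -val P := funext hval
    rw [h2, fderiv_neg, neg_eq_zero] at h1
    exact h1

end Pool.Agent.Results.MP_955e70_an.AlgebraicBoundary
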