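import Pool.Agent.LFA74.Fin45
import Pool.Agent.LFA74B.Omit

/-!
# Levi-flat points of real algebraic sets disjoint from a Fatou-Bieberbach domain
-/

open Topology Filter Set

noncomputable section

namespace Pool.Agent.Results.MP_955e70_an.LeviFlatAlgebraic

/-- The value at `z` of a real polynomial in the real and imaginary parts of the coordinates. -/
def val {n : ℕ} (P : MvPolynomial (Fin n ⊕ Fin n) ℝ) (z : Fin n → ℂ) : ℝ :=
  MvPolynomial.eval (Sum.elim (fun j => (z j).re) fun j => (z j).im) P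

/-- A smooth complex hypersurface through `q` is contained in `{P = 0}`: a graph near `q`, in which
one coordinate is a holomorphic function of the others. -/
def HasLeaf {m : ℕ} (P : MvPolynomial (Fin (m + 1) ⊕ Fin (m + 1)) ℝ) (q : Fin (m + 1) → ℂ) :
    Prop :=
  ∃ (i : Fin (m + 1)) (φ : (Fin m → ℂ) → ℂ), AnalyticAt ℂ φ (i.removeNth q) ∧
    φ (i.removeNth q) = q i ∧ ∀ᶠ t in 𝓝 (i.removeNth q), val P (i.insertNth (φ t) t) = 0

lemma val_continuous {n : ℕ} (P : MvPolynomial (Fin n ⊕ Fin n) ℝ) : Continuous (val P) := by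
  refine (MvPolynomial.continuous_eval P).comp (continuous_pi fun j => ?_)
  rcases j with j | j
  · exact Complex.continuous_re.comp (continuous_apply j)
  · exact Complex.continuous_im.comp (continuous_apply j)

lemma val_analytic {n : ℕ} (P : MvPolynomial (Fin n ⊕ Fin n) ℝ) (z : Fin n → ℂ) :
    AnalyticAt ℝ (val P) z := by
  have hX : ∀ i : Fin n ⊕ Fin n,
      AnalyticAt ℝ (fun z : Fin n → ℂ => Sum.elim (fun j => (z j).re) (fun j => (z j).im) i) z := by
    intro i
    rcases i with i | i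
    · exact (Complex.reCLM.comp (ContinuousLinearMap.proj (R := ℝ) (φ := fun _ : Fin n => ℂ) i)
        ).analyticAt z
    · exact (Complex.imCLM.comp (ContinuousLinearMap.proj (R := ℝ) (φ := fun _ : Fin n => ℂ) i)
        ).analyticAt z
  unfold val
  induction P using MvPolynomial.induction_on with
  | C a => simpa using analyticAt_const
  | add p q hp hq => simp only [map_add]; exact hp.add hq
  | mul_X p i hp =>
    simp only [map_mul, MvPolynomial.eval_X]
    exact hp.mul (hX i)

/-- If `P` takes both signs on a connected open set, then it has a zero there outside the zero set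
of any given nonzero complex polynomial. -/
theorem exists_zero {n : ℕ} (P : MvPolynomial (Fin n ⊕ Fin n) ℝ) (Q : MvPolynomial (Fin n) ℂ)
    (hQ : Q ≠ 0) (U : Set (Fin n → ℂ)) (hU : IsOpen U) (hUc : IsConnected U)
    (hneg : ∃ a ∈ U, val P a < 0) (hpos : ∃ b ∈ U, 0 < val P b) :
    ∃ q ∈ U, val P q = 0 ∧ MvPolynomial.eval q Q ≠ 0 := by
  obtain ⟨a, ha, hPa⟩ := hneg
  obtain ⟨b, hb, hPb⟩ := hpos
  -- a point of `U` in the closures of both sides
  have hcov : U ⊆ closure {z | val P z < 0} ∪ closure {z | 0 < val P z} := by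
    intro z hz
    by_contra hcon
    rw [mem_union, not_or, mem_closure_iff_frequently, mem_closure_iff_frequently,
      not_frequently, not_frequently] at hcon
    have h0 : val P =ᶠ[𝓝 z] 0 := by
      filter_upwards [hcon.1, hcon.2] with t h1 h2
      exact le_antisymm (not_lt.1 h2) (not_lt.1 h1)
    exact hPa.ne (AnalyticOnNhd.eqOn_zero_of_preconnected_of_eventuallyEq_zero
      (fun y _ => val_analytic P y) hUc.isPreconnected hz h0 ha)
  obtain ⟨p, hp, hp1, hp2⟩ := isPreconnected_closed_iff.1 hUc.isPreconnected _ _ isClosed_closure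
    isClosed_closure hcov ⟨a, ha, subset_closure hPa⟩ ⟨b, hb, subset_closure hPb⟩
  obtain ⟨r, hr, hrU⟩ := Metric.isOpen_iff.1 hU p hp
  obtain ⟨a', ha', hPa'⟩ := Metric.mem_closure_iff.1 hp1 r hr
  obtain ⟨b', hb', hPb'⟩ := Metric.mem_closure_iff.1 hp2 r hr
  rw [dist_comm] at hPa' hPb'
  obtain ⟨z, hz, hz0, hzQ⟩ := LFA74.sign_path (U := Metric.ball p r) Metric.isOpen_ball
    (convex_ball p r) (val_continuous P) hPa' hPb' ha' hb' hQ
  exact ⟨z, hrU hz, hz0, hzQ⟩

/-- Let `Ω` be an open subset of `ℂⁿ`, `n = m + 1`, which is the image of an entire map, for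
instance a Fatou-Bieberbach domain. For each `d` there is a complex polynomial `Q` of degree at most
`d * (n + d).choose d`, without zeros in `Ω`, such that for all real polynomials `P` in the `2n` real
coordinates, of degree at most `d` and without zeros in `Ω`: all points through which a smooth
complex hypersurface contained in `{P = 0}` passes lie in `{Q = 0}`, and `P` has zeros outside
`{Q = 0}` in each connected open set in which it takes both signs. -/
theorem result (m : ℕ) (Ω : Set (Fin (m + 1) → ℂ)) (hΩ : IsOpen Ω)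
    (G : (Fin (m + 1) → ℂ) → (Fin (m + 1) → ℂ)) (hG : Differentiable ℂ G) (hGΩ : range G = Ω)
    (d : ℕ) :
    ∃ Q : MvPolynomial (Fin (m + 1)) ℂ, Q.totalDegree ≤ d * (m + 1 + d).choose d ∧
      (∀ z ∈ Ω, MvPolynomial.eval z Q ≠ 0) ∧
      ∀ P : MvPolynomial (Fin (m + 1) ⊕ Fin (m + 1)) ℝ, P.totalDegree ≤ d →
        (∀ z ∈ Ω, val P z ≠ 0) →
          (∀ q, HasLeaf P q → MvPolynomial.eval q Q = 0) ∧
          ∀ U : Set (Fin (m + 1) → ℂ), IsOpen U → IsConnected U → (∃ a ∈ U, val P a < 0) →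
            (∃ b ∈ U, 0 < val P b) → ∃ q ∈ U, val P q = 0 ∧ MvPolynomial.eval q Q ≠ 0 := by
  have hGy : ∀ y, G y ∈ Ω := fun y => hGΩ ▸ mem_range_self y
  have hex : ∀ x, ∃ y, x ∈ Ω → G y = x := by
    intro x
    by_cases hx : x ∈ Ω
    · rw [← hGΩ] at hx
      obtain ⟨y, hy⟩ := hx
      exact ⟨y, fun _ => hy⟩
    · exact ⟨x, fun h => absurd h hx⟩
  choose F hF using hex
  obtain ⟨Q, hQd, hQΩ, hQ⟩ := LFA74B.master_omit hΩ hG hGy hF d
  have hQ0 : Q ≠ 0 := fun h0 => hQΩ _ (hGy 0) (by rw [h0, map_zero])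
  refine ⟨Q, hQd, hQΩ, fun P hPd hP =>
    ⟨?_, fun U hU hUc h1 h2 => exists_zero P Q hQ0 U hU hUc h1 h2⟩⟩
  rintro z ⟨i, φ, hφ, hφz, hφ0⟩
  obtain ⟨q, hq0, hqd, hqz, hqP⟩ := LFA74.leaf_poly P (hP _ (hGy 0)) i hφ hφ0
  rw [hφz, Fin.insertNth_self_removeNth] at hqz
  exact hQ q (hqd.trans hPd) (fun x hx hqx => hP x hx (hqP x hqx)) z hqz

end Pool.Agent.Results.MP_955e70_an.LeviFlatAlgebraic
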