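import Pool.Agent.FBL.Main

/-!
# No parabolic product family in the boundary of a Fatou–Bieberbach domain
-/

set_option autoImplicit false

namespace Pool.Agent.Results.MP_955e70_an.NoParabolicFamily

open Set

/-- `Ω` is a Fatou–Bieberbach domain in `ℂⁿ`: a proper open subset with a biholomorphic map
`G : ℂⁿ → Ω` with inverse `F`. -/
def FatouBieberbach (n : ℕ) (Ω : Set (Fin n → ℂ)) : Prop :=
  IsOpen Ω ∧ Ω ≠ univ ∧ ∃ F G : (Fin n → ℂ) → (Fin n → ℂ),
    DifferentiableOn ℂ F Ω ∧ Differentiable ℂ G ∧ (∀ y, G y ∈ Ω) ∧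
      (∀ x ∈ Ω, G (F x) = x) ∧ ∀ y, F (G y) = y

/-- `Ω ⊆ ℂ^(m+1)` has a product family of leaves `R` over a piece of the boundary of an open set
`D ⊆ ℂᵐ` with a peak point `a`: a holomorphic embedding `h` of a neighbourhood `V` of
`R × (∂D ∩ N)`, `N` a neighbourhood of `a`, with `h (u, s) ∈ Ω` for `(u, s) ∈ V`, `s ∈ D`, and
`h (u, s) ∉ Ω` for `u ∈ R`, `s ∈ ∂D ∩ N`. -/
def HasLeafFamily (m : ℕ) (R : Set ℂ) (Ω : Set (Fin (m + 1) → ℂ)) : Prop :=
  ∃ (D N : Set (Fin m → ℂ)) (a : Fin m → ℂ) (P : (Fin m → ℂ) → ℂ)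
    (V : Set (ℂ × (Fin m → ℂ))) (h : ℂ × (Fin m → ℂ) → (Fin (m + 1) → ℂ)),
    IsOpen D ∧ a ∈ frontier D ∧ IsOpen N ∧ a ∈ N ∧
    (DifferentiableOn ℂ P N ∧ P a = 0 ∧ ∀ s ∈ closure D ∩ N, s ≠ a → (P s).re < 0) ∧
    IsOpen V ∧ R ×ˢ (frontier D ∩ N) ⊆ V ∧
    DifferentiableOn ℂ h V ∧ InjOn h V ∧ (∀ x ∈ V, Function.Injective (fderiv ℂ h x)) ∧
    (∀ x ∈ V, x.2 ∈ D → h x ∈ Ω) ∧ ∀ x ∈ R ×ˢ (frontier D ∩ N), h x ∉ Ω

theorem det_ne_zero {X : Type} [NormedAddCommGroup X] [NormedSpace ℂ X] [FiniteDimensional ℂ X]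
    {A : X →L[ℂ] X} (hA : Function.Injective A) : A.det ≠ 0 := by
  have h1 : LinearMap.ker (A : X →ₗ[ℂ] X) = ⊥ := LinearMap.ker_eq_bot.2 hA
  have h2 : IsUnit (A : X →ₗ[ℂ] X) := (LinearMap.isUnit_iff_ker_eq_bot _).2 h1
  exact (LinearMap.isUnit_det _ h2).ne_zero

theorem no_leaf (b : Bool) (m : ℕ) (hm : 1 ≤ m) (Ω : Set (Fin (m + 1) → ℂ))
    (hΩ : FatouBieberbach (m + 1) Ω) : ¬ HasLeafFamily m (Pool.Agent.FBL.Leaf b) Ω := by
  rintro ⟨D, N, a, P, V, h, hD, ha, hN, haN, ⟨hP, hPa, hpeak⟩, hV, hRV, hd, hinj, himm, hin, hout⟩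
  obtain ⟨hΩo, -, F, G, hF, hG, hGΩ, hGF, hFG⟩ := hΩ
  have : Nontrivial (Fin m → ℂ) := by
    have : Nonempty (Fin m) := ⟨⟨0, hm⟩⟩
    infer_instance
  let L : (Fin (m + 1) → ℂ) ≃L[ℂ] (ℂ × (Fin m → ℂ)) :=
    ContinuousLinearEquiv.ofFinrankEq (by simp [add_comm])
  have fb : Pool.Agent.FBL.FB (L.symm ⁻¹' Ω) (fun w => L (F (L.symm w)))
      (fun w => L (G (L.symm w))) :=
    { isOpen := hΩo.preimage L.symm.continuous
      dF := L.differentiable.comp_differentiableOn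
        (hF.comp L.symm.differentiable.differentiableOn fun w hw => hw)
      dG := L.differentiable.comp (hG.comp L.symm.differentiable)
      mem := fun y => by
        show L.symm (L (G (L.symm y))) ∈ Ω
        rw [ContinuousLinearEquiv.symm_apply_apply]
        exact hGΩ _
      GF := fun x hx => by
        show L (G (L.symm (L (F (L.symm x))))) = x
        rw [ContinuousLinearEquiv.symm_apply_apply, hGF _ hx,
          ContinuousLinearEquiv.apply_symm_apply]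
      FG := fun y => by
        show L (F (L.symm (L (G (L.symm y))))) = y
        rw [ContinuousLinearEquiv.symm_apply_apply, hFG, ContinuousLinearEquiv.apply_symm_apply] }
  refine Pool.Agent.FBL.no_family b fb hD ha hN haN hP hPa hpeak hV hRV
    (h := fun x => L (h x)) (L.differentiable.comp_differentiableOn hd)
    (fun x hx y hy hxy => hinj hx hy (L.injective hxy)) ?_ ?_ ?_
  · intro x hx
    have hdx : DifferentiableAt ℂ h x := hd.differentiableAt (hV.mem_nhds hx)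
    have h1 : fderiv ℂ (fun x => L (h x)) x = (L : _ →L[ℂ] _).comp (fderiv ℂ h x) :=
      L.comp_fderiv
    rw [h1]
    refine det_ne_zero ?_
    intro y z hyz
    exact himm x hx (L.injective hyz)
  · intro x hx hxD
    show L.symm (L (h x)) ∈ Ω
    rw [ContinuousLinearEquiv.symm_apply_apply]
    exact hin x hx hxD
  · intro x hx
    show L.symm (L (h x)) ∉ Ω
    rw [ContinuousLinearEquiv.symm_apply_apply]
    exact hout x hx

/-- **No parabolic product families.** The boundary of a Fatou–Bieberbach domain in `ℂⁿ`, `n ≥ 2`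
(`n = m + 1`), contains no product family of leaves `ℂ` or `ℂ ∖ {0}` over a hypersurface piece
with a peak point. -/
theorem result (m : ℕ) (hm : 1 ≤ m) (Ω : Set (Fin (m + 1) → ℂ))
    (hΩ : FatouBieberbach (m + 1) Ω) :
    ¬ HasLeafFamily m univ Ω ∧ ¬ HasLeafFamily m {0}ᶜ Ω := by
  have h1 : Pool.Agent.FBL.Leaf false = univ := by
    ext u; simp [Pool.Agent.FBL.Leaf]
  have h2 : Pool.Agent.FBL.Leaf true = {0}ᶜ := by
    ext u; simp [Pool.Agent.FBL.Leaf]
  exact ⟨h1 ▸ no_leaf false m hm Ω hΩ, h2 ▸ no_leaf true m hm Ω hΩ⟩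

end Pool.Agent.Results.MP_955e70_an.NoParabolicFamily
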